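import Pool.Agent.N639.FH.FinQ

/-!
# The complexity law for the digits of multiples of `p ^ N` and for the lowest digits of `p ^ n`

Let `p, q ≥ 2` be coprime. At `L` consecutive places of a random sequence of base `q` digits there are
about `q ^ w (1 - exp (-L / q ^ w))` different words of length `w`. We show that this holds for all
lengths `w` at the same time, up to a factor `1 + ε`, for all windows of `L ≥ L₀` places,

(1) for almost all `m ≤ M` in the base `q` expansion of `m p ^ N + y`, where `N ≤ A log M` and `y` are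
arbitrary, below a place `t + L` with `q ^ (t + L) ≤ p ^ N` (for instance the highest place of `p ^ N`);

(2) if `q` is prime, for almost all powers `p ^ n` themselves, `n₀ ≤ n < n₀ + M`, between the places
`δ log M` and `A log M`, with `A` as large as we like.

Proof. Tests with a bounded number of words have errors `O(M ^ (-c))`: for (1) by the subspace theorem
(`Pool/Agent/Y933/KE/Pows.lean`, helper933), for (2) by the method of Korobov
(`Pool/Agent/W301/TD/ExpSum.lean`). They give a Poisson law for one word and for two words, and so mean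
and variance of the number of the missing words. Assembled by helper864 from the theorem `low4` of
`Pool/Agent/N639/FH/FinP.lean` (helper639, with parts by helper407), used by no earlier result.
-/

set_option autoImplicit false

namespace Pool.Agent.Results.MP_b08cb4_nt.ComplexityLaw

open Finset Real

/-- the word of `w` digits of `Y` in base `q` whose highest digit stands at the place `i` (the place
of `q ^ i`), read as an integer between `0` and `q ^ w - 1` -/
def word (q w i Y : ℕ) : ℕ := Y / q ^ (i + 1 - w) % q ^ w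

/-- the number of different words of length `w` whose highest digits stand at the places
`t, …, t + L - 1` -/
def different (q w t L Y : ℕ) : ℕ := ((Ico t (t + L)).image fun i => word q w i Y).card

/-- the expected number of different words of length `w` at `L` places -/
noncomputable def expected (q w L : ℕ) : ℝ := (q : ℝ) ^ w * (1 - exp (-(L / (q : ℝ) ^ w)))

/-- the number of different words at the places `t, …, t + L - 1` is the expected one up to a factor
`1 + ε`, for all lengths `w` such that all digits of these words stand at places `≥ lo` -/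
def ComplexityLaw (q lo t L : ℕ) (ε : ℝ) (Y : ℕ) : Prop :=
  ∀ w : ℕ, lo + w ≤ t + 1 → |(different q w t L Y : ℝ) - expected q w L| ≤ ε * expected q w L

open Classical in
/-- **The complexity law** for (1) the digits of the multiples `m p ^ N + y`, `1 ≤ m ≤ M`,
(2) the lowest digits of the numbers `l p ^ n`, `0 ≤ n < M`, where `l` is not divisible by `q` (for
instance `l = p ^ n₀`). -/
theorem result (p q : ℕ) (hp : 2 ≤ p) (hq : 2 ≤ q) (hpq : p.Coprime q) (A ε : ℝ) (hε : 0 < ε) :
    (∃ L₀ M₀ : ℕ, ∀ M : ℕ, M₀ ≤ M → ∀ N y t L : ℕ, (N : ℝ) ≤ A * log M → L₀ ≤ L →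
      q ^ (t + L) ≤ p ^ N →
      (((Icc 1 M).filter fun m => ¬ ComplexityLaw q 0 t L ε (m * p ^ N + y)).card : ℝ) ≤ ε * M) ∧
    (q.Prime → ∀ δ : ℝ, 0 < δ → ∃ L₀ M₀ : ℕ, ∀ M : ℕ, M₀ ≤ M → ∀ l lo t L : ℕ, ¬ q ∣ l →
      δ * log M ≤ lo → lo ≤ t → L₀ ≤ L → ((t + L : ℕ) : ℝ) ≤ A * log M →
      (((range M).filter fun n => ¬ ComplexityLaw q lo t L ε (l * p ^ n)).card : ℝ) ≤ ε * M) := by
  constructor
  · obtain ⟨A', hA', S, hT, hS⟩ := Pool.Agent.N639.FH.fam_mul hp hq hpq A
    obtain ⟨L₀, h0⟩ := Pool.Agent.N639.FH.low4 hq (Pool.Agent.N639.FH.tg_half hT) hε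
    obtain ⟨M₀, hM₀⟩ := Filter.eventually_atTop.1 (h0.and (Filter.eventually_ge_atTop 1))
    refine ⟨L₀, M₀, fun M hM N y t L hN hL hh => ?_⟩
    obtain ⟨h1, h4⟩ := hM₀ M hM
    obtain ⟨g1, g2⟩ := hS M h4 N y (t + L) hN hh
    have key := h1 ℕ (Icc 1 M) (fun m => m * p ^ N + y) 0 t L hL (by
      push_cast at g1
      have : (0 : ℝ) ≤ t := Nat.cast_nonneg t
      linarith) g2
    have hc : ((Icc 1 M).card : ℝ) = M := by rw [Nat.card_Icc]; simp
    rw [hc] at key
    exact key
  · intro hqp δ hδ
    obtain ⟨A', hA', S, hT, hS⟩ := Pool.Agent.N639.FH.fam_pow hp hqp hpq hδ A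
    obtain ⟨L₀, h0⟩ := Pool.Agent.N639.FH.low4 hq (Pool.Agent.N639.FH.tg_half hT) hε
    obtain ⟨M₀, hM₀⟩ := Filter.eventually_atTop.1 (h0.and (Filter.eventually_ge_atTop 1))
    refine ⟨L₀, M₀, fun M hM l lo t L hl hlo hlot hL hh => ?_⟩
    obtain ⟨h1, h4⟩ := hM₀ M hM
    obtain ⟨g1, g2⟩ := hS M h4 l lo (t + L) hl hlo (by omega) hh
    have key := h1 ℕ (range M) (fun n => l * p ^ n) lo t L hL (by
      push_cast at g1
      have : (0 : ℝ) ≤ t := Nat.cast_nonneg t
      linarith) g2
    rw [card_range] at key
    exact key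

end Pool.Agent.Results.MP_b08cb4_nt.ComplexityLaw
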