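import Pool.Agent.U864.DL.LangInt

/-!
# The longest words of a language in the digits of multiples of `p ^ N` and in the lowest digits of `p ^ n`

Let `p, q ≥ 2` be coprime and let `𝓛` be a language (a set of words) over the digits `0, …, q - 1` with
the growth rate `θ`, where `0 < θ < q`: it has `θ ^ (w + o(w))` words of length `w`. The longest word of `𝓛`
in a block of `L` random base `q` digits has length `(1 + o(1)) log L / log (q / θ)` (for instance the
longest run of a digit, `θ = 1`; the longest stretch without a given word; the longest palindrome,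
`θ = √q`; the longest word in which a digit has a frequency at least `a > 1 / q`). We show that this
holds

(1) for almost all `m ≤ M` in the base `q` expansion of `m p ^ N + y`, where `N ≤ A log M` and `y` are
arbitrary, for all blocks of `L ≥ L₀` digits below a place `h` with `q ^ h ≤ p ^ N` (so `h` may be the
highest place of `p ^ N`);

(2) if `q` is prime, for almost all powers `p ^ n` themselves, `n₀ ≤ n < n₀ + M`, and all blocks of
`L ≥ L₀` digits between the places `δ log M` and `h ≤ A log M`, with `A` as large as we like.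

For a fixed place `h` and a proportion `ε` of exceptions the law holds for all `L ≥ L₀` at the same time,
and `L₀` does not depend on `M`.

Proof. Tests with a bounded number of words have errors `O(M ^ (-c))`: for (1) by the subspace theorem
(`Pool/Agent/Y933/KE/Pows.lean`, helper933), for (2) by the method of Korobov
(`Pool/Agent/W301/TD/ExpSum.lean`). New here (`Pool/Agent/U864/DL/Lang.lean`, `Lang2.lean`,
`LangInt.lean`): the first moment of the number of words in `𝓛` at all places and the second moment
at separated places, for each length and each `L = 2 ^ j`, with errors which can be summed, and the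
passage to all `L`.
-/

set_option autoImplicit false

namespace Pool.Agent.Results.MP_b08cb4_nt.LongestWordsOfLanguages

open Finset Real
open Pool.Agent.U864.DL (blockDown wordsOf GrowthRate PrefixClosed DownLongestWordLaw)

open Classical in
/-- **The longest words of a language** in (1) the digits of the multiples `m p ^ N + y`,
`1 ≤ m ≤ M`, (2) the lowest digits of the numbers `l p ^ n`, `0 ≤ n < M`, where `l` is not divisible by
`q` (for instance `l = p ^ n₀`). -/
theorem result (p q : ℕ) (hp : 2 ≤ p) (hq : 2 ≤ q) (hpq : p.Coprime q) (𝓛 : Set (List ℕ)) (θ : ℝ)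
    (hθ : 0 < θ) (hθq : θ < q) (hg : GrowthRate q 𝓛 θ) (A C ε : ℝ) (hε : 0 < ε) :
    (∃ w₀ L₀ M₀ : ℕ, ∀ M : ℕ, M₀ ≤ M → ∀ N y h : ℕ, (N : ℝ) ≤ A * log M → q ^ h ≤ p ^ N →
      (((Icc 1 M).filter fun m =>
        ¬ DownLongestWordLaw q 𝓛 θ C ε w₀ L₀ 0 h (m * p ^ N + y)).card : ℝ) ≤ ε * M) ∧
    (q.Prime → ∀ δ : ℝ, 0 < δ → ∃ w₀ L₀ M₀ : ℕ, ∀ M : ℕ, M₀ ≤ M → ∀ l lo h : ℕ, ¬ q ∣ l →
      δ * log M ≤ lo → (h : ℝ) ≤ A * log M →
      (((range M).filter fun n =>
        ¬ DownLongestWordLaw q 𝓛 θ C ε w₀ L₀ lo h (l * p ^ n)).card : ℝ) ≤ ε * M) := by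
  constructor
  · obtain ⟨A', hA', S, hT, hS⟩ := Pool.Agent.N639.FH.fam_mul hp hq hpq A
    obtain ⟨w₀, L₀, h0⟩ := Pool.Agent.U864.DL.down_longest_word hq hT 𝓛 hθ hθq hg C hε
    obtain ⟨M₀, hM₀⟩ := Filter.eventually_atTop.1 (h0.and (Filter.eventually_ge_atTop 1))
    refine ⟨w₀, L₀, M₀, fun M hM N y h hN hh => ?_⟩
    obtain ⟨h1, h4⟩ := hM₀ M hM
    obtain ⟨g1, g2⟩ := hS M h4 N y h hN hh
    have key := h1 ℕ (Icc 1 M) (fun m => m * p ^ N + y) 0 h g1 g2
    have hc : ((Icc 1 M).card : ℝ) = M := by rw [Nat.card_Icc]; simp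
    rw [hc] at key
    exact key
  · intro hqp δ hδ
    obtain ⟨A', hA', S, hT, hS⟩ := Pool.Agent.N639.FH.fam_pow hp hqp hpq hδ A
    obtain ⟨w₀, L₀, h0⟩ := Pool.Agent.U864.DL.down_longest_word hq hT 𝓛 hθ hθq hg C hε
    obtain ⟨M₀, hM₀⟩ := Filter.eventually_atTop.1 (h0.and (Filter.eventually_ge_atTop 1))
    refine ⟨w₀, max L₀ 1, M₀, fun M hM l lo h hl hlo hh => ?_⟩
    obtain ⟨h1, h4⟩ := hM₀ M hM
    by_cases hloh : lo ≤ h
    · obtain ⟨g1, g2⟩ := hS M h4 l lo h hl hlo hloh hh
      have key := h1 ℕ (range M) (fun n => l * p ^ n) lo h g1 g2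
      rw [card_range] at key
      refine le_trans ?_ key
      have hsub : ((range M).filter fun n =>
            ¬ DownLongestWordLaw q 𝓛 θ C ε w₀ (max L₀ 1) lo h (l * p ^ n)) ⊆
          ((range M).filter fun n => ¬ DownLongestWordLaw q 𝓛 θ C ε w₀ L₀ lo h (l * p ^ n)) := by
        intro m hm
        rw [mem_filter] at hm ⊢
        exact ⟨hm.1, fun hcon => hm.2 fun N hN hNh => hcon N ((le_max_left _ _).trans hN) hNh⟩
      exact_mod_cast card_le_card hsub
    · rw [Finset.filter_false_of_mem]
      · simp only [card_empty, Nat.cast_zero]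
        positivity
      · intro n _ hcon
        refine hcon fun N hN hNh => ?_
        have := le_trans (le_max_right L₀ 1) hN
        omega

end Pool.Agent.Results.MP_b08cb4_nt.LongestWordsOfLanguages
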