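import Pool.Agent.U457.PA.Main
import Pool.Agent.R473.PP.Fail
import Pool.Agent.TH461.AL.Fin

/-!
# Probabilistic finite automata cannot predict the digits of powers

Let `b, q ≥ 2` be coprime (for instance different primes) and `a ≥ 1`. A probabilistic predictor with `Q`
states reads base `b` digits of `a q ^ n`, upwards or downwards. Before it reads the next digit it draws,
with a law which depends on its state only, a prediction of this digit together with the state to which it
goes, a function of the digit it will read. For all but `δ T` of any `T` consecutive exponents `n`, in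
every long window of places, every such predictor is wrong at least `T ^ (1 - ε)` times, except with
probability at most `exp (- T ^ (1 - ε))`. The exceptional exponents do not depend on the predictor.

The engine is `Pool.Agent.U457.PA`; the failures of `d_k = d_(k+P)` in the windows are counted with the
starting theorem `WordsInAllWindows`.
-/

set_option autoImplicit false

namespace Pool.Agent.Results.MP_b08cb4_nt.RandomizedPredictors

open Finset Filter Pool.Agent.U457.PA
open scoped ENNReal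

/-- `d 0, …, d (l - 1)` are the digits of `m` in base `b` at the places `u, …, u + l - 1` (the last
digit of `m` has the place `0`), in this or in the opposite order -/
def Reads (b m u l : ℕ) (d : ℕ → Fin b) : Prop :=
  (∀ k < l, (d k : ℕ) = m / b ^ (u + k) % b) ∨ (∀ k < l, (d k : ℕ) = m / b ^ (u + l - 1 - k) % b)

/-- the probability that less than `y` of the predictions for `d 0, …, d (l - 1)` are wrong, for the
predictor `R` with the initial state `q` -/
noncomputable def few {Q b : ℕ} (R : Predictor Q (Fin b)) (d : ℕ → Fin b) (q : Fin Q) (l : ℕ)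
    (y : ℝ) : ℝ≥0∞ :=
  (run R d q l).toOuterMeasure {s | (s.2 : ℝ) < y}

open Classical in
/-- Let `b, q ≥ 2` be coprime, `a ≥ 1`, `Q` a natural number and `ε, δ, η > 0`. There is `T₀` such that
for all `T ≥ T₀` and all `J`, for all but at most `δ T` of the exponents `n = J + t`, `t < T`, the
following holds for every window `u, …, u + l - 1` of places of the base `b` expansion of `a q ^ n` of
length `l ≥ η (J + T)`, for the digits at these places in increasing or in decreasing order, and for
EVERY probabilistic predictor with `Q` states and every initial state: the probability that less than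
`T ^ (1 - ε)` of the predictions of the `l` digits are wrong is at most `exp (- T ^ (1 - ε))`. -/
theorem result (b q : ℕ) (hb : 2 ≤ b) (hq : 2 ≤ q) (hco : Nat.Coprime b q) (a : ℕ) (ha : 1 ≤ a)
    (Q : ℕ) (ε δ η : ℝ) (hε : 0 < ε) (hδ : 0 < δ) (hη : 0 < η) :
    ∃ T₀ : ℕ, ∀ T : ℕ, T₀ ≤ T → ∀ J : ℕ,
      (((Finset.range T).filter (fun t : ℕ => ¬ ∀ u l : ℕ,
        u + l ≤ (Nat.digits b (a * q ^ (J + t))).length → η * ((J : ℝ) + T) ≤ l →
          ∀ d : ℕ → Fin b, Reads b (a * q ^ (J + t)) u l d →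
            ∀ (R : Predictor Q (Fin b)) (q₀ : Fin Q),
              few R d q₀ l ((T : ℝ) ^ (1 - ε)) ≤
                ENNReal.ofReal (Real.exp (-(T : ℝ) ^ (1 - ε))))).card : ℝ) ≤ δ * T := by
  obtain ⟨P, hPdef⟩ : ∃ P, P = Q.factorial := ⟨_, rfl⟩
  have hP : 1 ≤ P := by rw [hPdef]; exact Nat.factorial_pos Q
  set ε' : ℝ := min ε 1 with hε'
  have hε'0 : 0 < ε' := lt_min hε one_pos
  obtain ⟨T1, hT1⟩ := Pool.Agent.TH461.AL.Fin.pow_windows hb hq hco ha (P + 1)
    (ε := ε' / 2) (δ := δ) (η := η) (by positivity) hδ hη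
  have ht : Tendsto (fun T : ℕ => (T : ℝ) ^ (ε' / 2)) atTop atTop :=
    (tendsto_rpow_atTop (by positivity)).comp tendsto_natCast_atTop_atTop
  obtain ⟨T3, hT3⟩ := (tendsto_atTop.1 ht (9 * ((Q + P + 1 : ℕ) : ℝ) + Q)).exists_forall_of_atTop
  refine ⟨max T1 (max T3 1), fun T hT J => ?_⟩
  have e1 : T1 ≤ T := (le_max_left _ _).trans hT
  have e3 : T3 ≤ T := (le_max_left _ _).trans ((le_max_right _ _).trans hT)
  have e4 : 1 ≤ T := (le_max_right _ _).trans ((le_max_right _ _).trans hT)
  have hTR : (1 : ℝ) ≤ T := by exact_mod_cast e4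
  have hT0 : (0 : ℝ) < T := by linarith
  have h3 := hT3 T e3
  have hpow : (T : ℝ) ^ (1 - ε) ≤ (T : ℝ) ^ (1 - ε') :=
    Real.rpow_le_rpow_of_exponent_le hTR (by have := min_le_left ε 1; linarith)
  have hone : 1 ≤ (T : ℝ) ^ (1 - ε') :=
    Real.one_le_rpow hTR (by have := min_le_right ε 1; linarith)
  have hsplit : (T : ℝ) ^ (1 - ε' / 2) = (T : ℝ) ^ (1 - ε') * (T : ℝ) ^ (ε' / 2) := by
    rw [← Real.rpow_add hT0]
    congr 1
    ring
  have hb1 : 1 < b ^ (P + 1) := Nat.one_lt_pow (by omega) (by omega)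
  refine le_trans (Nat.cast_le.2 (card_le_card ?_)) (hT1 T e1 J)
  intro t htm
  rw [mem_filter] at htm ⊢
  refine ⟨htm.1, fun hn1 => htm.2 fun u l hul hl d hd R q₀ => ?_⟩
  have h4 := hn1 u l hul hl 1 hb1
  have h5 := Pool.Agent.R473.PP.word_fails' hb _ P u l hP d hd
  have h6 : Pool.Agent.R473.PP.fails d P l ≤
      #{z ∈ range l | z + (Q + P + 1) ≤ l ∧ d (z + Q) ≠ d (z + (Q + P))} + Q := by
    have h7 : ∀ s : Finset ℕ, (∀ k ∈ s, k + P < l ∧ d k ≠ d (k + P)) →
        s.card ≤ #{z ∈ range l | z + (Q + P + 1) ≤ l ∧ d (z + Q) ≠ d (z + (Q + P))} + Q := by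
      intro s hs
      have h8 : s ⊆ ({z ∈ range l | z + (Q + P + 1) ≤ l ∧ d (z + Q) ≠ d (z + (Q + P))}.image
          fun z => z + Q) ∪ range Q := by
        intro k hk
        obtain ⟨h9, h10⟩ := hs k hk
        by_cases hkQ : k < Q
        · exact mem_union_right _ (mem_range.2 hkQ)
        · refine mem_union_left _ (mem_image.2 ⟨k - Q, ?_, by omega⟩)
          rw [mem_filter, mem_range]
          refine ⟨by omega, by omega, ?_⟩
          rw [show k - Q + Q = k by omega, show k - Q + (Q + P) = k + P by omega]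
          exact h10
      refine (card_le_card h8).trans ((card_union_le _ _).trans (Nat.add_le_add card_image_le ?_))
      rw [card_range]
    unfold Pool.Agent.R473.PP.fails
    refine h7 _ fun k hk => ?_
    simp only [mem_filter, mem_range] at hk
    first
      | exact ⟨by omega, hk.2⟩
      | exact ⟨by omega, hk.2.2⟩
      | exact ⟨hk.2.1, hk.2.2⟩
  refine errors R d P (fun δ' h1 h2 => by rw [hPdef]; exact Nat.dvd_factorial h1 h2) q₀ l _ ?_
  have h11 : ((T : ℝ) ^ (1 - ε' / 2)) ≤
      ((#{z ∈ range l | z + (Q + P + 1) ≤ l ∧ d (z + Q) ≠ d (z + (Q + P))} : ℕ) : ℝ) + Q := by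
    refine h4.trans ?_
    exact_mod_cast h5.trans h6
  have h12 : (T : ℝ) ^ (1 - ε') * (9 * ((Q + P + 1 : ℕ) : ℝ) + Q) ≤ (T : ℝ) ^ (1 - ε' / 2) := by
    rw [hsplit]
    gcongr
  have h13 : (Q : ℝ) ≤ (T : ℝ) ^ (1 - ε') * Q := by
    have : (0 : ℝ) ≤ Q := Nat.cast_nonneg _
    nlinarith
  have h14 : 9 * ((Q + P + 1 : ℕ) : ℝ) * (T : ℝ) ^ (1 - ε) ≤
      9 * ((Q + P + 1 : ℕ) : ℝ) * (T : ℝ) ^ (1 - ε') := by
    gcongr
  have h15 : 9 * ((Q + P + 1 : ℕ) : ℝ) * (T : ℝ) ^ (1 - ε) ≤
      ((#{z ∈ range l | z + (Q + P + 1) ≤ l ∧ d (z + Q) ≠ d (z + (Q + P))} : ℕ) : ℝ) := by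
    nlinarith
  refine h15.trans (le_of_eq ?_)
  congr 2 <;> (ext z; simp only [mem_filter])

end Pool.Agent.Results.MP_b08cb4_nt.RandomizedPredictors
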