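import Pool.Agent.U491.LR.W
import Pool.Agent.U491.LR.P

set_option autoImplicit false

/-!
# Digits of powers along sparse sequences of exponents

Let `p, q ≥ 2` be coprime, for example different primes. We study the lowest digits of `p ^ m` in base `q` when
`m` runs through a sparse sequence of exponents: the primes (Mersenne numbers), the Fibonacci numbers, the
values of a polynomial, the powers of a number prime to `q` (Fermat numbers), and so on, and iterates.

A family of sequences of integers is spread up to the exponent `c` if exponentially small proportions of the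
classes modulo `q ^ T`, `q ^ T ≤ N ^ c`, contain exponentially small proportions of the first `N` terms. If the
family `e i` of exponents is spread, then for almost all `n ≤ N`, with a power saving in the number of
exceptions, every word of digits has the right frequency among the `T` lowest digits of `l p ^ (e i n) + t`, for
all `T ≤ c log_q N` up to `ε log N`; and the word of the `T` lowest digits cannot be compressed by any method. All
this is uniform in the integers `l` prime to `q` and `t`. The families of exponents are closed under `v ∘ ·` for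
linear recurrences `v` with last coefficient prime to `q`.

Method. `n ↦ p ^ n` is `r`-adically analytic on residue classes for the primes `r ∣ q`, its derivative has few
approximate zeros, and elsewhere it is nearly injective modulo `q ^ T`; large deviations for digits.
-/

namespace Pool.Agent.Results.MP_b08cb4_nt.SparseExponents

/-- The number of occurrences of the word with value `a < q ^ k`, of length `k`, among the `T` lowest digits
of `x` in base `q`: its last digit is at a place `i` with `i + k ≤ T`. -/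
def occ (q k a T : ℕ) (x : ℤ) : ℕ :=
  ((Finset.range T).filter (fun i => i + k ≤ T ∧ x / (q : ℤ) ^ i % (q : ℤ) ^ k = a)).card

/-- The family of sequences of integers `x i` is spread modulo the powers of `q` up to the exponent `c`: for
every `η > 0` there are `δ, K > 0` such that, for all `i`, `N ≥ 1` and `q ^ T ≤ N ^ c`, any
`exp (-η T) q ^ T` classes modulo `q ^ T` contain together at most `K exp (-δ T) N` of the integers `x i n`,
`1 ≤ n ≤ N`. -/
def Spread (q : ℕ) (c : ℝ) {ι : Type} (x : ι → ℕ → ℤ) : Prop :=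
  ∀ η : ℝ, 0 < η → ∃ δ K : ℝ, 0 < δ ∧ 0 < K ∧ ∀ (i : ι) (N T : ℕ), 1 ≤ N → (q : ℝ) ^ T ≤ (N : ℝ) ^ c →
    ∀ A : Finset ℤ, (A.card : ℝ) ≤ Real.exp (-(η * T)) * (q : ℝ) ^ T →
      (({n | 1 ≤ n ∧ n ≤ N ∧ ∃ a ∈ A, x i n ≡ a [ZMOD (q : ℤ) ^ T]} : Set ℕ).ncard : ℝ) ≤
        K * Real.exp (-(δ * T)) * N

/-- The linear recurrence `u (n + k) = c 0 u (n) + ... + c (k - 1) u (n + k - 1)` with `c 0` prime to `q`. -/
def CoprimeRec (q : ℕ) (u : ℕ → ℤ) : Prop :=
  ∃ (k : ℕ) (c : ℕ → ℤ), 1 ≤ k ∧ IsCoprime (c 0) (q : ℤ) ∧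
    ∀ n, u (n + k) = ∑ i ∈ Finset.range k, c i * u (n + i)

/-- `u` is smooth: for some step `M ≥ 1`, `q ^ (2 k)` divides all the `k`-th differences of `u` with step
`M`, for every `k`. -/
def Smooth (q : ℕ) (u : ℕ → ℤ) : Prop :=
  ∃ M : ℕ, 1 ≤ M ∧ ∀ k n : ℕ,
    (q : ℤ) ^ (2 * k) ∣ ∑ j ∈ Finset.range (k + 1), (-1) ^ (k - j) * (k.choose j : ℤ) * u (n + j * M)

/-- `u` is constant on no arithmetic progression. -/
def NoConst (u : ℕ → ℤ) : Prop := ∀ a m : ℕ, 1 ≤ m → ∃ j, u (a + m * j) ≠ u a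

theorem ncard_le {N : ℕ} {P : ℕ → Prop} {K : ℝ}
    (h : ∀ [DecidablePred P], (((Finset.Icc 1 N).filter P).card : ℝ) ≤ K) :
    (({n | 1 ≤ n ∧ n ≤ N ∧ P n} : Set ℕ).ncard : ℝ) ≤ K := by
  classical
  rw [Pool.Agent.U491.LR.ncard_eq]
  exact h

/-- **Main theorem.** Let `p, q ≥ 2` be coprime. Let `e i` be a family of sequences of exponents which is spread
modulo the powers of `q` up to the exponent `c > 0`.
(1) For every `k ≥ 1` and `ε > 0` there are `δ, K > 0` such that for all `i`, `N ≥ 1` and all integers `l` prime to `q`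
and `t`, for all but at most `K N ^ (1 - δ)` of the `n` in `[1, N]`: for all `T ≤ c log_q N`, every word of `k` digits
occurs `T / q ^ k` times among the `T` lowest digits in base `q` of `l p ^ (e i n) + t`, up to an error `ε log N`.
(2) For every `η > 0` there are `δ, K > 0` such that for all `i`, `N ≥ 1`, `q ^ T ≤ N ^ c`, all integers `l` prime to `q`
and `t`, and every injective coding `f` of the words of `T` digits by words of bits, for all but at most
`K exp (-δ T) N` of the `n` in `[1, N]` the code of the word of the `T` lowest digits of `l p ^ (e i n) + t` has more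
than `(1 - η) T log₂ q` bits.
(3) For every smooth sequence `v` of natural numbers which is constant on no arithmetic progression the
family `v (e i n)` is spread up to the exponent `c` as well.
(4) The family of the windows `X + n` is spread up to the exponent `1`, the sequence of the primes is spread
up to the exponent `1 / 2`. Linear recurrences with last coefficient prime to `q` and Newton series
`∑ c_j n (n - 1) ... (n - j + 1)` are smooth. The powers `r ^ n` of an integer `r ≥ 2` prime to `q` and the Fibonacci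
numbers are such recurrences and constant on no arithmetic progression. -/
theorem result (p q : ℕ) (hp : 2 ≤ p) (hq : 2 ≤ q) (hpq : p.Coprime q) :
    (∀ (ι : Type) (e : ι → ℕ → ℕ) (c : ℝ), 0 < c → Spread q c (fun i n => (e i n : ℤ)) →
      (∀ (k : ℕ) (ε : ℝ), 1 ≤ k → 0 < ε → ∃ δ K : ℝ, 0 < δ ∧ 0 < K ∧
        ∀ (i : ι) (N : ℕ) (l t : ℤ), 1 ≤ N → IsCoprime l (q : ℤ) →
          (({n | 1 ≤ n ∧ n ≤ N ∧ ∃ T : ℕ, (q : ℝ) ^ T ≤ (N : ℝ) ^ c ∧ ∃ a < q ^ k,
            ε * Real.log N < |(occ q k a T (l * (p : ℤ) ^ e i n + t) : ℝ) - T / (q : ℝ) ^ k|} :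
              Set ℕ).ncard : ℝ) ≤ K * (N : ℝ) ^ (1 - δ)) ∧
      (∀ η : ℝ, 0 < η → ∃ δ K : ℝ, 0 < δ ∧ 0 < K ∧
        ∀ (i : ι) (N T : ℕ) (l t : ℤ), 1 ≤ N → (q : ℝ) ^ T ≤ (N : ℝ) ^ c → IsCoprime l (q : ℤ) →
          ∀ f : ℤ → List Bool, Set.InjOn f (Set.Ico 0 ((q : ℤ) ^ T)) →
            (({n | 1 ≤ n ∧ n ≤ N ∧ ((f ((l * (p : ℤ) ^ e i n + t) % (q : ℤ) ^ T)).length : ℝ) ≤
              (1 - η) * T * Real.logb 2 q} : Set ℕ).ncard : ℝ) ≤ K * Real.exp (-(δ * T)) * N) ∧
      (∀ v : ℕ → ℕ, Smooth q (fun n => (v n : ℤ)) → NoConst (fun n => (v n : ℤ)) →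
        Spread q c (fun i n => ((v (e i n) : ℕ) : ℤ)))) ∧
    (Spread q 1 (fun (X : ℕ) (n : ℕ) => ((X + n : ℕ) : ℤ)) ∧
      Spread q (1 / 2) (fun (_ : Unit) (n : ℕ) => ((Nat.nth Nat.Prime n : ℕ) : ℤ)) ∧
      (∀ u : ℕ → ℤ, CoprimeRec q u → Smooth q u) ∧
      (∀ c : ℕ → ℤ, Smooth q (fun n => ∑ j ∈ Finset.range (n + 1), c j * (n.descFactorial j : ℤ))) ∧
      (∀ r : ℕ, 2 ≤ r → r.Coprime q →
        CoprimeRec q (fun n => ((r ^ n : ℕ) : ℤ)) ∧ NoConst (fun n => ((r ^ n : ℕ) : ℤ))) ∧
      CoprimeRec q (fun n => (Nat.fib n : ℤ)) ∧ NoConst (fun n => (Nat.fib n : ℤ))) := by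
  have hq0 : 0 < q := by omega
  have hsp : ∀ {ι : Type} {c : ℝ} {x : ι → ℕ → ℤ}, Spread q c x ↔ Pool.Agent.U491.LR.Spr q c x :=
    fun {ι c x} => Pool.Agent.U491.LR.spread_iff (x := x) hq0
  refine ⟨fun ι e c hc he => ?_, hsp.2 (Pool.Agent.U491.LR.spr_window hq0),
    hsp.2 (Pool.Agent.U491.LR.spr_prime hq), fun u hu => Pool.Agent.U491.LR.CoRec.smooth hq hu,
    fun c => Pool.Agent.U491.LR.newton_smooth (by omega) c,
    fun r hr hrq => ⟨Pool.Agent.U491.LR.pow_coRec hrq, Pool.Agent.U491.LR.pow_noConst hr⟩,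
    Pool.Agent.U491.LR.fib_coRec q, Pool.Agent.U491.LR.fib_fast.noConst⟩
  have he' := hsp.1 he
  have h1 : Pool.Agent.U491.LR.Spr q c (fun i n => (((p ^ (e i n) : ℕ)) : ℤ)) :=
    Pool.Agent.U491.LR.Smooth.comp hq (Pool.Agent.U491.LR.CoRec.smooth hq (Pool.Agent.U491.LR.pow_coRec hpq))
      (Pool.Agent.U491.LR.pow_noConst hp) he'
  have h1' : Pool.Agent.U491.LR.Spr q c (fun i n => (p : ℤ) ^ (e i n)) := by
    simp only [Nat.cast_pow] at h1
    exact h1
  have h2 := h1'.affine hq0
  refine ⟨fun k ε hk hε => ?_, fun η hη => ?_, fun v hv hne =>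
    hsp.2 (Pool.Agent.U491.LR.Smooth.comp hq (u := fun n => (v n : ℤ)) hv hne he')⟩
  · obtain ⟨δ, K, hδ, hK, h⟩ := Pool.Agent.U491.LR.freq hq hc h2 hk hε
    refine ⟨δ, K, hδ, hK, fun i N l t hN hl => ?_⟩
    refine ncard_le (P := fun n => ∃ T : ℕ, (q : ℝ) ^ T ≤ (N : ℝ) ^ c ∧ ∃ a < q ^ k,
            ε * Real.log N < |(occ q k a T (l * (p : ℤ) ^ e i n + t) : ℝ) - T / (q : ℝ) ^ k|) ?_
    intro _
    have h3 := h (i, ⟨l, hl⟩, t) N hN
    convert h3
    rfl
  · obtain ⟨δ, K, hδ, hK, h⟩ := Pool.Agent.U491.LR.incomp hq h2 hη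
    refine ⟨δ, K, hδ, hK, fun i N T l t hN hT hl f hf => ?_⟩
    refine ncard_le (P := fun n => ((f ((l * (p : ℤ) ^ e i n + t) % (q : ℤ) ^ T)).length : ℝ) ≤
              (1 - η) * T * Real.logb 2 q) ?_
    intro _
    have h3 := h (i, ⟨l, hl⟩, t) N T hN hT f hf
    convert h3

end Pool.Agent.Results.MP_b08cb4_nt.SparseExponents
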